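import Mathlib
import Pool.Agent.E8helper14.FD.Cor

/-!
# A density theorem for the violations of the Ramanujan conjecture in arbitrary families of spherical cusp forms on
`PGL_n`, at all places

Let `n ≥ 2` and let `(φ_j)` be an **arbitrary finite family** of pairwise different spherical cusp forms on `PGL_n` over
`ℚ`, with Satake parameters `α_{j,p,i}` and Langlands parameters `μ_{j,i}`. Put
`E(δ) = (1 - 2δ) / max(1, 4δ)`: so `E(δ) = 1 - 2δ` for `δ ≤ 1/4`, and `E(δ) = (1 - 2δ) / (4δ)` for `1/4 ≤ δ ≤ 1/2`. For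
every `ε > 0` there is a constant `A` which depends only on `n` and `ε` such that:

* if `Q` is at least the analytic conductor `∏_{i,l} (1 + |μ_{j,i} - μ_{k,l} - i(t_j - t_k)|)` of `L(s, π_j × π_k~)` at the
  height `t_k - t_j`, for all `j` and `k`, then at most `A Q^{E(δ) + ε}` forms of the family have a Langlands parameter in
  the box `|Re μ| ≥ δ`, `|Im μ - t_j| ≤ 1`; and for every prime `p` at most `A (p^{n²} Q)^{E(δ) + ε}` forms have
  `θ_{φ_j,p} ≥ δ`. (The numbers `t_j` are arbitrary; they may be all equal, and then `Q` bounds the usual conductors.)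
* Let `|μ_{j,i}| ≤ T` for all `j` and `i`. At most `A T^{(n² - 4) E(δ) + ε}` of the forms have `θ_{φ_j,∞} ≥ δ` (`δ > 0`),
  and at most `A (p T)^{n² E(δ) + ε}` of them have `θ_{φ_j,p} ≥ δ`.
* For `ν ∈ ℂⁿ` with `|Re ν_i| ≥ δ` for some `i` there are at most `A C(ν)^{E(δ) + ε}` spherical cusp forms with the
  Langlands parameters `ν`, where `C(ν) = ∏_{i,l} (1 + |ν_i - ν_l|)`.

There are `≍ T^{(n² + n - 2) / 2}` spherical cusp forms with `|μ_i| ≤ T`, and at most `O(C(ν)^{1/2})` of them with
parameters within `1` of a given `ν`. So the exponent `E(δ)` is nontrivial for all `δ > 1/4`, a range which contains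
values below the known bounds towards the conjecture for all `n ≥ 3`; for families of size `Q^{1/2}` it becomes
`|family|^{1 - 2δ}` as `δ → 1/2`. For the forms with `|μ_i| ≤ T` the exponent `(n² - 4) E(δ)` at the real place is
smaller, for all `δ ≥ 1/4`, than the exponent `(n + 2)(n - 1 - 2δ) / 2` of Sarnak's density hypothesis
`|family|^{1 - 2δ/(n-1)}`. The known density theorems (by the trace formula or the Kuznetsov formula, which are not used
here) are for complete families.

The structure `SphericalFamily` lists what is used of the forms: the properties `SphericalCuspForm` of the single forms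
(`Pool.Agent.TH949.RES.PGL`), the bounds of Jacquet and Shalika, and, for `j ≠ k`, that `L(s, π_j × π_k~)` and the
completed function are entire, of polynomial growth in vertical strips (not assumed to be uniform), with the functional
equation (Jacquet, Piatetski-Shapiro, Shalika; Moeglin, Waldspurger).

The proof: the coefficients of `L(s, π_j × π_k~) = exp(∑ (∑_i α_{j,p,i}^m) conj(∑_i α_{k,p,i}^m) / (m p^{ms}))` are, for
each tuple of prime powers, of the form `c w_j conj(w_k)`, `c ≥ 0`. Let `b_j` be minus a Langlands parameter of `φ_j` with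
`Re b_j ≥ δ`. Then `b_j + conj(b_k)` is a **trivial zero** of `L(s, π_j × π_k~)` to the right of `0`. For a smooth weight
`V ≥ 0` with `V ≥ 1/2` on the integer `1` and length `X`, the double sum over `j, k` of the smoothed sums for
`L(b_j + conj(b_k), π_j × π_k~)` is a sum of nonnegative terms and at least `N² / 2`, `N` the number of forms. Because of
the zero the off diagonal terms are integrals on a line to the left; they are `≪ Q^{1/2 + A} X^{-A - 2δ}` on the line
`Re s = -A`. The diagonal terms are `≪ Q^ε X^{1 - 2δ + ε}`. We take `X` a little larger than `Q` and `A` large, or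
`X = Q^{1/(4δ)}` and `A` small. At a prime `p` one removes the Euler factors at `p`, which gives a zero at
`b_j + conj(b_k)`, `p^{b_j} = α_{j,p,i}`. The bound `L(1 + η, π_j × π_j~) ≪ Q^ε` follows from a power bound by
amplification: `K log L(σ) ≤ log L(σ') + O(1)` for `1 < σ' < σ`.
-/

set_option autoImplicit false

namespace Pool.Agent.Results.MP_fa98d2_nt.FamilyDensityH14

open Pool.Agent.E8helper14.FD (SphericalFamily)

variable {n : ℕ}

/-- the exponent `E(δ) = (1 - 2δ) / max(1, 4δ)` -/
noncomputable def expo (δ : ℝ) : ℝ := (1 - 2 * δ) / max 1 (4 * δ)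

/-- **The density theorem for the violations of the Ramanujan conjecture in families.** -/
theorem result (hn : 2 ≤ n) {ε : ℝ} (hε : 0 < ε) :
    ∃ A : ℝ, 0 < A ∧ ∀ (J : Type) [Finite J] (α : J → Nat.Primes → Fin n → ℂ) (μ : J → Fin n → ℂ),
      SphericalFamily α μ → ∀ δ : ℝ, 0 ≤ δ →
      -- families of given conductor
      (∀ (t : J → ℝ) (Q : ℝ), 1 ≤ Q →
        (∀ j k, ∏ i, ∏ l, (1 + ‖μ j i - μ k l - ((t j - t k : ℝ) : ℂ) * Complex.I‖) ≤ Q) →
        (((({j : J | ∃ i, δ ≤ |(μ j i).re| ∧ |(μ j i).im - t j| ≤ 1} : Set J).ncard : ℕ) : ℝ) ≤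
          A * Q ^ (expo δ + ε)) ∧
        ∀ p : Nat.Primes, (((({j : J | ∃ i, δ ≤ |Real.logb ((p : ℕ) : ℝ) ‖α j p i‖|} : Set J).ncard : ℕ) : ℝ) ≤
          A * (((p : ℕ) : ℝ) ^ (n ^ 2) * Q) ^ (expo δ + ε))) ∧
      -- forms of bounded height
      (∀ T : ℝ, 1 ≤ T → (∀ j i, ‖μ j i‖ ≤ T) →
        (0 < δ → (((({j : J | ∃ i, δ ≤ |(μ j i).re|} : Set J).ncard : ℕ) : ℝ) ≤
          A * T ^ (((n : ℝ) ^ 2 - 4) * expo δ + ε))) ∧
        ∀ p : Nat.Primes, (((({j : J | ∃ i, δ ≤ |Real.logb ((p : ℕ) : ℝ) ‖α j p i‖|} : Set J).ncard : ℕ) : ℝ) ≤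
          A * (((p : ℕ) : ℝ) * T) ^ ((n : ℝ) ^ 2 * expo δ + ε))) ∧
      -- multiplicities
      ∀ ν : Fin n → ℂ, (∃ i, δ ≤ |(ν i).re|) →
        (((({j : J | μ j = ν} : Set J).ncard : ℕ) : ℝ) ≤ A * (∏ i, ∏ l, (1 + ‖ν i - ν l‖)) ^ (expo δ + ε)) :=
  Pool.Agent.E8helper14.FD.density_all hn hε

end Pool.Agent.Results.MP_fa98d2_nt.FamilyDensityH14
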