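import Pool.Agent.E8helper75.JS.Main

/-!
# Finite families of spherical cusp forms: bounds towards Ramanujan at all places from the joint small values at one
# sequence of scales

Let `(φ_j)` be a finite family of pairwise different spherical cusp forms on `PGL_{n_j}` over `ℚ`, of possibly
different ranks `n_j ≥ 1` (for `n_j = 1` the constant function is meant, with `L`-function `ζ(s)`), with Satake
parameters `α_{j,p,i}`, Langlands parameters `μ_{j,i}` at the real place and Hecke eigenvalues
`λ_j(p) = ∑_i α_{j,p,i}`.  Let `H = (H_{jl})` be a symmetric positive semidefinite matrix of nonnegative integers, and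
`H[λ(p)] = ∑_{j,l} H_{jl} λ_j(p) conj(λ_l(p)) ≥ 0`.  The mean value of `H[λ(p)]` over the primes is `tr H`.  We show: if
for some `c ≥ 1/2` and `δ > 0` there are arbitrarily large `X` such that

  `∑_{X^{1-δ} ≤ p ≤ X} max(0, tr H - H[λ(p)]) < X^c`,

then, simultaneously for all forms `φ_j` of the family with `H_{jj} ≠ 0`, **`θ_{φ_j,v} ≤ c / 2` at every place
`v ≤ ∞`**, and all zeros and poles of `∏_{j,l} L(s, π_j × π_l~)^{H_{jl}} / ζ(s)^{tr H}` have real part `≤ c`.

In other words: if a single form `φ_1` violates the Ramanujan conjecture at a single place by more than `c / 2 ≥ 1/4`,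
then for every finite family of other forms and every `H` with `H_{11} ≠ 0` the sum is at least `X^c` for **all** large
`X`.  Examples:

* `H` the identity matrix, or any diagonal matrix: every interval `[X^{1-δ}, X]` contains many primes at which the forms
  are small at the same time, `∑_j h_j |λ_j(p)|² < ∑_j h_j`, for any weights `h_j`;
* `H_{jl} = a_j a_l` with integers `a_j ≥ 0`: many primes with `|∑_j a_j λ_j(p)|² < ∑_j a_j²`;
* the family of a form `φ` and of the constant function: many primes at which `λ(p)` lies in the disc with the centre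
  `-t` and the radius `√(1 + t²)`, for every rational `t ≥ 0`.  All these discs contain the half
  `|λ| < 1`, `Re λ < 0` of the unit disc; as `t → ∞` they tend to the half plane `Re λ < 0`.  So this is information on
  the signs of `Re λ(p)`.

The starting result `EveryScale` is the case of a single form, `H = 1`.

The structure `JointFamily` lists what is used: the properties of the single forms in `SphericalCuspForm` (unitary
local components; absolute convergence, continuation and functional equation of `L(s, π × π~)`), and that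
`L(s, π_j × π_l~)` is entire for different forms (Jacquet, Piatetski-Shapiro, Shalika; Moeglin, Waldspurger).

The proof: `∑_{p,k} (H[λ(p^k)] - tr H) / (k p^{ks})`, where `λ_j(p^k) = ∑_i α_{j,p,i}^k`, is the logarithm of
`D(s) = ∏ L(s, π_j × π_l~)^{H_{jl}} / ζ(s)^{tr H}`, which has no real poles, since the exponents `H_{jl}` are not
negative.  A violation at the real place gives a real zero of `D`, by the Gamma factors of `L(s, π_j × π_j~)`; a
violation at `p` gives a real zero of `D` after the Euler factor at `p` is removed from `D`.  The general explicit formula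
of the starting files (`Pool.Agent.TH949.TX.main_right`) then shows that there are many negative coefficients at every
scale; as `H` is positive semidefinite, those at the prime powers `p^k`, `k ≥ 2`, are negligible for `c ≥ 1/2`.

The definitions are in `Pool/Agent/E8helper75/JS/Defs.lean` and `Pool/Agent/TH949/RES/PGL.lean`.
-/

set_option autoImplicit false

namespace Pool.Agent.Results.MP_fa98d2_nt.JointSmallValuesH75

open Pool.Agent.E8helper75.JS

/-- **Joint small values at one sequence of scales imply bounds towards Ramanujan.** -/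
theorem result {J : Type} [Fintype J] {r : J → ℕ} {α : ∀ j, Nat.Primes → Fin (r j) → ℂ}
    {μ : ∀ j, Fin (r j) → ℂ} (hf : JointFamily r α μ) (H : J → J → ℕ) (hsym : ∀ j l, H j l = H l j)
    (hpsd : ∀ z : J → ℂ, 0 ≤ herm H z) {c δ : ℝ} (hc : 1 / 2 ≤ c) (hδ : 0 < δ)
    (hX : ∀ X₀ : ℝ, ∃ X : ℝ, X₀ ≤ X ∧ defect H α δ X < X ^ c) :
    (∀ j, H j j ≠ 0 → (∀ (p : Nat.Primes) (i : Fin (r j)), |Real.logb ((p : ℕ) : ℝ) ‖α j p i‖| ≤ c / 2) ∧
      ∀ i, |(μ j i).re| ≤ c / 2) ∧
    ¬ ZeroPole H α c := by
  have key : ¬ ((∃ j, H j j ≠ 0 ∧ ((∃ (p : Nat.Primes) (i : Fin (r j)), c < 2 * |Real.logb ((p : ℕ) : ℝ) ‖α j p i‖|) ∨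
      ∃ i, c < 2 * |(μ j i).re|)) ∨ ZeroPole H α c) := by
    intro hv
    obtain ⟨X₀, hX₀⟩ := Filter.eventually_atTop.1 (main hsym hpsd hf hc hδ hv)
    obtain ⟨X, hX1, hX2⟩ := hX X₀
    exact absurd hX2 (not_lt.2 (hX₀ X hX1))
  rw [not_or] at key
  obtain ⟨k1, k2⟩ := key
  refine ⟨fun j hj => ⟨fun p i => ?_, fun i => ?_⟩, k2⟩
  · by_contra h1
    exact k1 ⟨j, hj, Or.inl ⟨p, i, by linarith [not_le.1 h1]⟩⟩
  · by_contra h1
    exact k1 ⟨j, hj, Or.inr ⟨i, by linarith [not_le.1 h1]⟩⟩

end Pool.Agent.Results.MP_fa98d2_nt.JointSmallValuesH75
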