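import Pool.Agent.E8helper22.UV.B4

/-!
# Spherical cusp forms on `PGL_n`: violations of Ramanujan force many small Hecke eigenvalues, uniformly in the form

Let `n ≥ 2` and let `φ` be a spherical cusp form on `PGL_n` over `ℚ`, with Satake parameters `α_{i,p}`, Langlands
parameters `μ_i` at the real place, Hecke eigenvalues `λ(p) = ∑_i α_{i,p}`, and conductor
`C = ∏_{i,j} (1 + |μ_i - μ_j|)`. Recall `θ_{φ,p} = max_i |log_p |α_{i,p}||`, `θ_{φ,∞} = max_i |Re μ_i|`. We show: for
every `κ > 0` there are constants `A` and `b > 0` which depend only on `n` and `κ`, such that for all `φ` and all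
`σ ≥ 1/2`:

* if `θ_{φ,∞} ≥ (σ + κ) / 2`, or if `L(s, π × π~)` has a real zero `β` with `σ + κ ≤ β ≤ 1`, then for **every**
  `X ≥ (A C)^A`

    `∑_{p ≤ X} max(0, 1 - |λ(p)|²) p^{-σ} ≥ b log X`;

* if `θ_{φ,q} ≥ (σ + κ) / 2` for a prime `q`, then the same holds for every `X ≥ (A C q)^A`.

If `n ≤ 3`, then `π_p` is tempered if `|λ(p)| < 1`, so `∑ p^{-σ} ≥ b log X` for the sum over the primes `p ≤ X` such
that `π_p` is tempered.

In other words: the inequality `∑_{p ≤ X} max(0, 1 - |λ(p)|²) p^{-σ} < b log X` for a single `X ≥ (A C)^A`, a statement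
on finitely many Hecke eigenvalues, bounded polynomially in the conductor, proves the bound
`θ_{φ,v} < (σ + κ) / 2` at the real place and at all primes `v = q` with `(A C q)^A ≤ X`, and excludes exceptional
zeros of `L(s, π × π~)`.

The results known so far are for a fixed `φ` and not effective: by `SmallEigenvaluesControl` the series over all `p`
diverges, by `EveryScale` there are many such primes in `[X^{1-δ}, X]` for `X ≥ X_0(φ)`; nothing is said about the size
of `X_0(φ)`. On the other hand `LeastSmallTrace` gives, uniformly in `φ`, one prime power at most `A C^{1+ε}` with small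
trace.

The proof. Let `F(s) = L(s, π × π~) / ζ(s)`, `log F(s) = ∑ d(m) m^{-s}` over the prime powers, so that
`d(p^k) = (|∑_i α_{i,p}^k|² - 1) / k`. Multiply `F` by `P(s) = exp (∑ |d(m)| m^{-s})`, the sum being over the `m ≤ X` with
`d(m) < 0`: the product has nonnegative coefficients up to `X`. In `Re s ≥ σ + κ/2`, `P` is at most a constant times
`exp (∑_{p ≤ X} max(0, 1 - |λ(p)|²) p^{-σ})`. The functional equation gives a real zero `β = 2 θ_{φ,∞}` of `F`, and a
zero at `β = 2 θ_{φ,q}` once the Euler factor at `q` is removed. So a smoothed sum of the coefficients at `s = β` is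
small by a contour shift to `Re s = β - κ/2`, but it is at least `1/2`, the contribution of the coefficient `1` of
`m = 1`. The poles of `F` at the zeros of `ζ` of bounded height are removed by kernels which vanish there and are
nonnegative (`ζ` has no zeros in `(0, 1)`), those of larger height by Gaussian decay.

The structure `SphericalCuspForm` (starting file `TH949/RES/PGL`) lists what is used of `φ` besides the bounds of
Jacquet and Shalika `|α_{i,p}| < p^{1/2}` and `|Re μ_i| < 1/2`: the local components are unitary; the Rankin-Selberg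
series converges absolutely for `Re s > 1`; `L(s, π × π~)` is entire except for a simple pole at `s = 1`, of polynomial
growth in vertical strips (not assumed to be uniform in `φ`), and it satisfies the functional equation.
-/

set_option autoImplicit false

namespace Pool.Agent.Results.MP_fa98d2_nt.UniformSmallEigenvaluesH22

open Pool.Agent.TH949.RES (SphericalCuspForm logL)

/-- `L(s, π × π~)` has a zero at the real number `β`: the entire function `G(s) = (s - 1) L(s, π × π~)` vanishes
at `β` -/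
def RealZero {n : ℕ} (α : Nat.Primes → Fin n → ℂ) (β : ℝ) : Prop :=
  ∃ G : ℂ → ℂ, Differentiable ℂ G ∧ (∀ s : ℂ, 1 < s.re → G s = (s - 1) * Complex.exp (logL α s)) ∧ G β = 0

open scoped Classical in
/-- **Violations of the Ramanujan conjecture force many small Hecke eigenvalues, uniformly in the form.** -/
theorem result {n : ℕ} (hn : 2 ≤ n) {κ : ℝ} (hκ : 0 < κ) :
    ∃ A b : ℝ, 1 ≤ A ∧ 0 < b ∧ ∀ (α : Nat.Primes → Fin n → ℂ) (μ : Fin n → ℂ), SphericalCuspForm α μ →
      (∀ (p : Nat.Primes) i, ‖α p i‖ < ((p : ℕ) : ℝ) ^ (1 / 2 : ℝ)) → (∀ i, |(μ i).re| < 1 / 2) →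
      ∀ σ X : ℝ, 1 / 2 ≤ σ →
      ((((∃ i, σ + κ ≤ 2 * |(μ i).re|) ∨ ∃ β : ℝ, σ + κ ≤ β ∧ β ≤ 1 ∧ RealZero α β) ∧
          (A * ∏ i, ∏ j, (1 + ‖μ i - μ j‖)) ^ A ≤ X) ∨
        ∃ (q : Nat.Primes) (i : Fin n), σ + κ ≤ 2 * |Real.logb ((q : ℕ) : ℝ) ‖α q i‖| ∧
          ((A * ∏ i, ∏ j, (1 + ‖μ i - μ j‖)) * ((q : ℕ) : ℝ)) ^ A ≤ X) →
      b * Real.log X ≤ (∑' p : Nat.Primes,
        if ((p : ℕ) : ℝ) ≤ X then max 0 (1 - ‖∑ i, α p i‖ ^ 2) * ((p : ℕ) : ℝ) ^ (-σ) else 0) ∧
      (n ≤ 3 → b * Real.log X ≤ ∑' p : Nat.Primes,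
        if ((p : ℕ) : ℝ) ≤ X ∧ ∀ i, ‖α p i‖ = 1 then ((p : ℕ) : ℝ) ^ (-σ) else 0) := by
  obtain ⟨A, b, hA, hb, h1⟩ := Pool.Agent.E8helper22.UV.uniform_main hn hκ
  refine ⟨A, b, hA, hb, fun α μ h hα hμ σ X hσ hv => ?_⟩
  have h2 := h1 α μ h hα hμ σ X hσ hv
  refine ⟨h2, fun hn3 => h2.trans ?_⟩
  refine (Pool.Agent.E8helper22.UV.gX_summable α σ X).tsum_le_tsum (fun p => ?_) ?_
  · unfold Pool.Agent.E8helper22.UV.gX Pool.Agent.E8helper22.UV.wt
    have hp : (0 : ℝ) ≤ ((p : ℕ) : ℝ) ^ (-σ) := by positivity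
    by_cases hX : ((p : ℕ) : ℝ) ≤ X
    · rw [if_pos hX]
      by_cases ht : ∀ i, ‖α p i‖ = 1
      · rw [if_pos ⟨hX, ht⟩]
        refine mul_le_of_le_one_left hp (max_le zero_le_one ?_)
        nlinarith [sq_nonneg ‖∑ i, α p i‖]
      · rw [if_neg fun hh => ht hh.2]
        have h3 : ¬ ‖∑ i, α p i‖ < 1 := fun h4 =>
          ht (Pool.Agent.TH949.RES.tempered23 hn hn3 (h.ne_zero p) (h.unitary p) h4)
        have h5 : max 0 (1 - ‖∑ i, α p i‖ ^ 2) = 0 := by
          refine max_eq_left ?_
          nlinarith [not_lt.1 h3]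
        rw [h5, zero_mul]
    · rw [if_neg hX, if_neg fun hh => hX hh.1]
  · refine summable_of_finite_support ((Pool.Agent.TH949.RES.primes_finite ⌊X⌋₊).subset fun p hp => ?_)
    rw [Function.mem_support] at hp
    by_contra hcon
    apply hp
    rw [if_neg]
    rintro ⟨h3, -⟩
    exact hcon (Nat.le_floor h3)

end Pool.Agent.Results.MP_fa98d2_nt.UniformSmallEigenvaluesH22
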