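import Mathlib
import Pool.Agent.E8helper23.DT.Main

/-!
# Spherical cusp forms on `PGL_n`: a uniform density theorem for the violations of the Ramanujan conjecture

Let `n ≥ 2`, `m = ⌊n / 2⌋`, and let `φ` be a spherical cusp form on `PGL_n` over `ℚ`, with Satake parameters `α_{i,p}`
and Langlands parameters `μ_i` at the real place. Recall `θ_{φ,p} = max_i |log_p |α_{i,p}||`, and put
`C(φ) = ∏_{i,j} (1 + |μ_i - μ_j|)`. We show: for every `ε > 0` there is a constant `A` which depends only on `n` and `ε`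
such that for **every** such `φ`

* `∑_p p^{-m (1 + ε - 2 θ_{φ,p})} ≤ A (1 + log C(φ))`;
* for all `δ` and `x` there are at most `A (1 + log C(φ)) x^{m (1 - 2 δ + ε)}` primes `p ≤ x` with `θ_{φ,p} ≥ δ`. So, with
  a power saving exceptional set, all primes satisfy `θ_{φ,p} < 1/2 - 1/(2 m) + ε`. (The bound of Luo, Rudnick and Sarnak
  for all primes is `1/2 - 1/(n² + 1)`.)
* the least prime `p` with `θ_{φ,p} < 1/2 - 1/(2 m) + ε` is at most a power of `1 + log C(φ)`, namely at most
  `A (1 + log C(φ))^{2/ε}`. (For `n = 3` this is the least prime with `θ_{φ,p} < ε`. The bound for the least prime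
  with `θ_{φ,p} = 0` in `LeastSmallTrace` of this run is `A C(φ)^{1+ε}`.)

The structure `SphericalCuspForm` lists what is used of `φ` besides the bounds of Jacquet and Shalika
`|α_{i,p}| < p^{1/2}` and `|Re μ_i| < 1/2`: the local components are unitary; the Rankin-Selberg series converges
absolutely for `Re s > 1`; `L(s, π × π~)` is entire except for a simple pole at `s = 1`, of polynomial growth in
vertical strips (not assumed to be uniform in `φ`), and it satisfies the functional equation.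

The proof: at most `m` of the numbers `α_{i,p}` have absolute value `> 1`, as `π_p` is unitary. The eigenvalue
`∑_i α_{i,p}` and further power sums may be small although `θ_{φ,p}` is large; but by the Newton identities at least one
of the first `m` power sums of the large parameters is at least `p^{k θ} / m` in absolute value, `θ = θ_{φ,p}`,
`k ≤ m`. Such a power sum contributes a multiple of `p^{2 k θ - k σ} ≥ p^{-m (σ - 2 θ)}` to
`log L(σ, π × π~) = ∑_{p,k} |∑_i α_{i,p}^k|² / (k p^{kσ})`, and the latter is at most `A + 3 log C(φ)` by the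
functional equation and the Phragmén-Lindelöf principle.
-/

set_option autoImplicit false

namespace Pool.Agent.Results.MP_fa98d2_nt.ViolationsDensityH23

open Pool.Agent.TH949.RES (SphericalCuspForm)

variable {n : ℕ}

/-- `θ_{φ,p} = max_i |log_p |α_{i,p}||` -/
noncomputable def theta (α : Nat.Primes → Fin n → ℂ) (p : Nat.Primes) : ℝ :=
  ⨆ i, |Real.logb ((p : ℕ) : ℝ) ‖α p i‖|

/-- `C(φ) = ∏_{i,j} (1 + |μ_i - μ_j|)` -/
noncomputable def cond (μ : Fin n → ℂ) : ℝ := ∏ i, ∏ j, (1 + ‖μ i - μ j‖)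

/-- **A uniform density theorem for the violations of the Ramanujan conjecture.** -/
theorem result (hn : 2 ≤ n) {ε : ℝ} (hε : 0 < ε) :
    ∃ A : ℝ, 0 < A ∧ ∀ (α : Nat.Primes → Fin n → ℂ) (μ : Fin n → ℂ), SphericalCuspForm α μ →
      (∀ (p : Nat.Primes) i, ‖α p i‖ < ((p : ℕ) : ℝ) ^ (1 / 2 : ℝ)) → (∀ i, |(μ i).re| < 1 / 2) →
      (Summable (fun p : Nat.Primes => ((p : ℕ) : ℝ) ^ (-(((n / 2 : ℕ) : ℝ) * (1 + ε - 2 * theta α p)))) ∧
        ∑' p : Nat.Primes, ((p : ℕ) : ℝ) ^ (-(((n / 2 : ℕ) : ℝ) * (1 + ε - 2 * theta α p))) ≤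
          A * (1 + Real.log (cond μ))) ∧
      (∀ δ x : ℝ, 0 < x → (({p : Nat.Primes | ((p : ℕ) : ℝ) ≤ x ∧ δ ≤ theta α p}.ncard : ℕ) : ℝ) ≤
        A * (1 + Real.log (cond μ)) * x ^ (((n / 2 : ℕ) : ℝ) * (1 + ε - 2 * δ))) ∧
      ∃ p : Nat.Primes, ((p : ℕ) : ℝ) ≤ A * (1 + Real.log (cond μ)) ^ (2 / ε) ∧
        theta α p < 1 / 2 - 1 / (2 * ((n / 2 : ℕ) : ℝ)) + ε :=
  Pool.Agent.E8helper23.DT.density hn hε

end Pool.Agent.Results.MP_fa98d2_nt.ViolationsDensityH23
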